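import Pool.Agent.Helper49.RU.St

set_option autoImplicit false

namespace Pool.Agent.Helper75.RU

open Pool.Agent.Helper49.RU
open MeasureTheory Filter Topology Complex
open scoped ENNReal Cardinal ComplexConjugate

theorem hTSA (hHLF : StHLF) : StTSA := by
  classical
  obtain ⟨hA, hB, hC⟩ := hHLF
  intro X hX B
  obtain ⟨hD, hR⟩ := hX
  have down : ∀ P : Idx → Prop, DownC {c : Code | c ∈ X ∧ ∀ g ∈ c.2, P ⟨c.1, g⟩} := by
    intro P k Z Z' hZ hc
    refine ⟨hD k Z Z' hZ hc.1, ?_⟩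
    intro g hg
    exact hc.2 g (hZ hg)
  by_cases hrich : Rich {c : Code | c ∈ X ∧ ∀ g ∈ c.2, (⟨c.1, g⟩ : Idx) ∈ B}
  · refine ⟨{c : Code | c ∈ X ∧ ∀ g ∈ c.2, (⟨c.1, g⟩ : Idx) ∈ B}, fun c hc => hc.1,
      ⟨down (fun i => i ∈ B), hrich⟩, Or.inl (fun c hc => hc.2)⟩
  · unfold Rich at hrich
    push Not at hrich
    obtain ⟨j0, hj0⟩ := hrich
    refine ⟨{c : Code | c ∈ X ∧ ∀ g ∈ c.2, (⟨c.1, g⟩ : Idx) ∉ B}, fun c hc => hc.1,
      ⟨down (fun i => i ∉ B), ?_⟩, Or.inr (fun c hc => hc.2)⟩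
    intro j
    obtain ⟨k, hk, Z, hZX, hZ⟩ := hR (4 * (max j j0 + 1))
    have hjm : j ≤ max j j0 := le_max_left _ _
    have hj0m : j0 ≤ max j j0 := le_max_right _ _
    have h1 : Z.card ≤ 2 * (Z.filter (fun g => (⟨k, g⟩ : Idx) ∈ B)).card ∨
        Z.card ≤ 2 * (Z.filter (fun g => ¬ (⟨k, g⟩ : Idx) ∈ B)).card := by
      have h2 := Finset.card_filter_add_card_filter_not (s := Z) (fun g => (⟨k, g⟩ : Idx) ∈ B)
      omega
    rcases h1 with h1 | h1
    · exfalso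
      have h3 : Big (max j j0) (Z.filter (fun g => (⟨k, g⟩ : Idx) ∈ B)) :=
        hC _ k Z _ hZ (Finset.filter_subset _ _) h1
      have h4 := hA j0 (max j j0) k _ hj0m h3
      refine hj0 k (by omega) (Z.filter (fun g => (⟨k, g⟩ : Idx) ∈ B)) ⟨?_, ?_⟩ h4
      · exact hD k Z _ (Finset.filter_subset _ _) hZX
      · intro g hg
        exact (Finset.mem_filter.1 hg).2
    · have h3 : Big (max j j0) (Z.filter (fun g => ¬ (⟨k, g⟩ : Idx) ∈ B)) :=
        hC _ k Z _ hZ (Finset.filter_subset _ _) h1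
      refine ⟨k, by omega, Z.filter (fun g => ¬ (⟨k, g⟩ : Idx) ∈ B), ⟨?_, ?_⟩,
        hA j (max j j0) k _ hjm h3⟩
      · exact hD k Z _ (Finset.filter_subset _ _) hZX
      · intro g hg
        exact (Finset.mem_filter.1 hg).2

end Pool.Agent.Helper75.RU
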